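import Pool.Agent.Work.MP_a2fcf1_an_ar.All

/-!
# Supercritical SQG: analytic profiles, fast in one direction

For `κ > 0`, `0 < α < 1/2` and `σ > 0` there is `c > 0` such that for every integer `N ≥ 2` all
real data `θ₀(x) = ∑ g k exp (i (N k₁ x₁ + k₂ x₂))` with
`∑ exp (σ |k|₁) |g k| ≤ c N ^ (2α) / log N` lead to global smooth solutions of the SQG equation
with dissipation `κ (-Δ)^α`. So `N ^ γ F(N x₁, x₂)` is globally regular for every real-analytic
periodic `F`, every `γ < 2α` and all large `N`; the part of `F` which depends only on `x₂` (a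
shear flow) is not restricted.
-/

namespace Pool.Agent.Results.MP_a2fcf1_an.AnalyticProfiles

open Pool.Agent.Work.MP_a2fcf1_an_h64

/-- **Global regularity for analytic profiles which oscillate fast in one direction.** -/
theorem result : ∀ κ α σ : ℝ, 0 < κ → 0 < α → α < 1 / 2 → 0 < σ → ∃ c : ℝ, 0 < c ∧
    ∀ (N : ℕ) (g : ℤ × ℤ → ℂ) (θ₀ : ℝ × ℝ → ℝ), 2 ≤ N →
      (Summable fun k => Real.exp (σ * n1 k) * ‖g k‖) →
      ∑' k, Real.exp (σ * n1 k) * ‖g k‖ ≤ c * (N : ℝ) ^ (2 * α) / Real.log N →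
      (∀ x, ((θ₀ x : ℝ) : ℂ) = ∑' k : ℤ × ℤ, g k * ex ((N : ℤ) * k.1, k.2) x) →
      GloballyRegular κ α θ₀ :=
  Pool.SQGA.a_MAIN

end Pool.Agent.Results.MP_a2fcf1_an.AnalyticProfiles
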