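import Pool.Agent.Work.MP_a2fcf1_an_h64.AnisoMain

/-!
# Supercritical SQG: large data oscillating in one direction

Fix a unit vector `e = (u, v)` and a frequency threshold `N ≥ 1`, and measure frequencies by the
anisotropic length `ρ(k) = |k · e^⊥| + |k · e| / N`. If the Fourier coefficients of `θ₀` satisfy

`N ^ (-α) ∑_{|k| ≥ N} (1 + ρ(k)) exp (σ ρ(k)) |a k| +
  N ∑_{0 < |k| < N} (1 + ρ(k)) exp (σ ρ(k)) |a k| / |k| < κ σ / 256`

then the solution of the SQG equation with dissipation `κ (-Δ)^α`, `0 < α < 1/2`, is globally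
regular. The part at frequencies `|k| ≥ N` may have size `N ^ α`. For example all data
`θ₀(x) = G(N x₁, x₂)`, `G` analytic with zero mean in its first variable, are covered once the
integer `N` is large.
-/

namespace Pool.Agent.Results.MP_a2fcf1_an.AnisotropicData

open Pool.Agent.Work.MP_a2fcf1_an_h64

/-- **Global regularity for data of small anisotropic norm.** -/
theorem result : ∀ (κ α σ N u v : ℝ) (a : ℤ × ℤ → ℂ) (θ₀ : ℝ × ℝ → ℝ),
    0 < κ → 0 < α → α < 1 / 2 → 0 < σ → 1 ≤ N → u ^ 2 + v ^ 2 = 1 →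
    (Summable fun k => dens α σ N u v k * ‖a k‖) →
    ∑' k, dens α σ N u v k * ‖a k‖ < κ * σ / 256 →
    (∀ x, ((θ₀ x : ℝ) : ℂ) = ∑' k, a k * ex k x) →
    GloballyRegular κ α θ₀ :=
  fun _ _ _ _ _ _ _ _ h1 h2 h3 h4 h5 h6 h7 h8 h9 => aniso h1 h2 h3.le h4 h5 h6 h7 h8 h9

end Pool.Agent.Results.MP_a2fcf1_an.AnisotropicData
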