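import Pool.Agent.Work.MP_a2fcf1_an_fs.All

/-!
# Supercritical SQG: large data near the first shell, with a polynomial threshold

Let `Γ` be a subgroup of `ℤ²` whose nonzero elements `k` satisfy `|k|² ≥ M`. If `θ₀` is smooth
with frequencies in `Γ` and its part `η` at frequencies `|k|² > M` satisfies

`‖η‖_{H^(2-2α)}² ≤ c κ²` and `(1 + ‖θ₀‖² / κ²) ^ (1/α - 1) ‖η‖_{L²}² ≤ c κ²`

then the solution of the SQG equation with dissipation `κ (-Δ)^α`, `0 < α < 1/2`, is globally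
regular. The part at frequencies `|k|² = M` (for `Γ = ℤ²`, `M = 1` the lowest modes) may be
arbitrarily large.
-/

namespace Pool.Agent.Results.MP_a2fcf1_an.FirstShell

open Pool.Agent.Work.MP_a2fcf1_an_h64

/-- **Global regularity near the first shell.** -/
theorem result : ∀ (α : ℝ) (M : ℕ), 0 < α → α < 1 / 2 → 1 ≤ M →
    ∃ c : ℝ, 0 < c ∧ ∀ (κ : ℝ) (Γ : AddSubgroup (ℤ × ℤ)) (a : ℤ × ℤ → ℂ) (θ₀ : ℝ × ℝ → ℝ),
      0 < κ → (∀ k ∈ Γ, k ≠ 0 → (M : ℤ) ≤ k.1 ^ 2 + k.2 ^ 2) → (∀ k, a k ≠ 0 → k ∈ Γ) →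
      (∀ m : ℕ, Summable fun k => (1 + eu k) ^ m * ‖a k‖) →
      (∀ x, ((θ₀ x : ℝ) : ℂ) = ∑' k, a k * ex k x) →
      (∑' k : ℤ × ℤ, if (M : ℤ) < k.1 ^ 2 + k.2 ^ 2 then eu k ^ (4 - 4 * α) * ‖a k‖ ^ 2 else 0) ≤
        c * κ ^ 2 →
      (1 + (∑' k : ℤ × ℤ, if k = 0 then 0 else ‖a k‖ ^ 2) / κ ^ 2) ^ (1 / α - 1) *
        (∑' k : ℤ × ℤ, if (M : ℤ) < k.1 ^ 2 + k.2 ^ 2 then ‖a k‖ ^ 2 else 0) ≤ c * κ ^ 2 →
      GloballyRegular κ α θ₀ :=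
  Pool.SQGF.first_shell

end Pool.Agent.Results.MP_a2fcf1_an.FirstShell
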