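import Pool.Agent.Work.MP_a2fcf1_an_sp.All

/-!
# Supercritical SQG on the plane: large anisotropic data

The SQG equation on `ℝ²` with dissipation `κ (-Δ)^α`, `0 < α < 1/2`. Data are written as
`θ₀(x) = Re ∫ g(ξ) exp (i ξ · x) dξ`, with `n(ξ) = |ξ₁|/N + |ξ₂|/δ` for frequency scales
`N, δ > 0` in the two directions.

There is `c = c(α) > 0` such that `θ₀` is globally regular in each of the following cases.

* `|g(ξ)| ≤ w(|ξ|) exp (-n(ξ))` for a nonnegative nondecreasing `w` with `w(r)/r` nonincreasing,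
  and `N δ ∫ w(|η|) |η|^(-1-2α) (1+|η₁|/N)^(-2) (1+|η₂|/δ)^(-2) dη ≤ c κ`;
* `|g(ξ)| ≤ A/(N δ) exp (-n(ξ))` and `A δ^(1-2α) ≤ c κ` (no condition on `N`);
* `|g(ξ)| ≤ A/(N δ) min(1, |ξ|/N) exp (-n(ξ))` and `A δ ≤ c κ N^(2α)`.
-/

open MeasureTheory Pool.SQW

namespace Pool.Agent.Results.MP_a2fcf1_an.PlaneAnisotropic

/-- **Global regularity of anisotropic data for the supercritical SQG equation on the plane.** -/
theorem result : ∀ α : ℝ, 0 < α → α < 1 / 2 → ∃ c : ℝ, 0 < c ∧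
    ∀ (κ N δ : ℝ) (g : ℝ × ℝ → ℂ), 0 < κ → 0 < N → 0 < δ → Measurable g →
    (∀ w : ℝ → ℝ, QC w → (∀ ξ, ‖g ξ‖ ≤ w (eu ξ) * Real.exp (-nn N δ ξ)) →
      Integrable (JJ α N δ w) → N * δ * ∫ y, JJ α N δ w y ≤ c * κ →
      GloballyRegular κ α fun x => (FI g x).re) ∧
    (∀ A : ℝ, 0 < A → A * δ ^ (1 - 2 * α) ≤ c * κ →
      (∀ ξ, ‖g ξ‖ ≤ A / (N * δ) * Real.exp (-nn N δ ξ)) →
      GloballyRegular κ α fun x => (FI g x).re) ∧
    (∀ A : ℝ, 0 < A → A * δ ≤ c * κ * N ^ (2 * α) →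
      (∀ ξ, ‖g ξ‖ ≤ A / (N * δ) * min 1 (eu ξ / N) * Real.exp (-nn N δ ξ)) →
      GloballyRegular κ α fun x => (FI g x).re) :=
  t_RES

end Pool.Agent.Results.MP_a2fcf1_an.PlaneAnisotropic
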